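import Mathlib
import Pool.Agent.Work.MP_3772ec_co.Speed

/-!
# Local representations with square-root-size labels: a negative answer

There is a hereditary property satisfying the speed limit `n ^ (k * n)` such that every local
representation of it needs labels of more than `(1/20) * sqrt n * log n` bits for infinitely
many `n`.  In particular labels of `O(sqrt n)` bits do not suffice.
-/

namespace Pool.Agent.Results.MP_3772ec_co.SqrtLogLower

open Filter Finset Pool.Agent.Work.MP_3772ec_co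

/-- A hereditary property of finite simple graphs: for every `n` the set of its members with
vertex set `Fin n`, closed under pulling back along injections `Fin m ↪ Fin n`, that is, closed
under isomorphism and under taking induced subgraphs. -/
structure HereditaryProperty where
  /-- the members with vertex set `Fin n` -/
  graphs : (n : ℕ) → Set (SimpleGraph (Fin n))
  /-- closure under isomorphism and induced subgraphs -/
  closed : ∀ {m n : ℕ} (f : Fin m ↪ Fin n) (G : SimpleGraph (Fin n)),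
    G ∈ graphs n → G.comap f ∈ graphs m

/-- The speed limit: for some constant `k > 0`, the number of members with vertex set `Fin n`
is at most `n ^ (k * n)` for all large `n`. -/
def SpeedLimit (P : HereditaryProperty) : Prop :=
  ∃ k : ℝ, 0 < k ∧ ∀ᶠ n : ℕ in atTop, ((P.graphs n).ncard : ℝ) ≤ (n : ℝ) ^ (k * (n : ℝ))

/-- `P` has a local representation with `b n`-bit labels: one function `A` on pairs of bit
strings decodes, for every `n` and every member `G` on `n` vertices, some labelling of the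
vertices of `G` by bit strings of length at most `b n`. -/
def HasLocalRep (P : HereditaryProperty) (b : ℕ → ℕ) : Prop :=
  ∃ A : List Bool → List Bool → Bool, ∀ n : ℕ, ∀ G ∈ P.graphs n,
    ∃ l : Fin n → List Bool, (∀ v, (l v).length ≤ b n) ∧
      ∀ v w, v ≠ w → (G.Adj v w ↔ A (l v) (l w) = true)

/-! ### The construction -/

/-- size of a block at level `i` -/
def qq (i : ℕ) : ℕ := 2 ^ (4 * 2 ^ i - i)

/-- number of left vertices at level `i` -/
def NN (i : ℕ) : ℕ := 2 * 256 ^ (2 ^ i)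

/-- number of bits defeated at level `i` -/
def BB (i : ℕ) : ℕ := 2 ^ i * 16 ^ (2 ^ i)

/-- number of blocks at level `i` -/
def dd (i : ℕ) : ℕ := 2 * (2 ^ i * 16 ^ (2 ^ i)) + 1

lemma kq (i : ℕ) : 2 ^ i * qq i = 16 ^ (2 ^ i) := by
  unfold qq
  have h : i ≤ 4 * 2 ^ i := by
    have : i < 2 ^ i := Nat.lt_two_pow_self
    omega
  rw [← pow_add]
  have : i + (4 * 2 ^ i - i) = 4 * 2 ^ i := by omega
  rw [this, pow_mul]
  norm_num

lemma vertices_le (i : ℕ) : NN i + dd i * qq i ≤ 5 * 256 ^ (2 ^ i) := by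
  unfold NN dd
  have h2 : (2 * (2 ^ i * 16 ^ (2 ^ i)) + 1) * qq i = 2 * 16 ^ (2 ^ i) * (2 ^ i * qq i) + qq i := by
    ring
  rw [h2, kq]
  have h3 : qq i ≤ 16 ^ (2 ^ i) := by
    rw [← kq i]
    exact Nat.le_mul_of_pos_left _ (by positivity)
  have h4 : 16 ^ (2 ^ i) * 16 ^ (2 ^ i) = 256 ^ (2 ^ i) := by rw [← mul_pow]; norm_num
  have h5 : 16 ^ (2 ^ i) ≤ 16 ^ (2 ^ i) * 16 ^ (2 ^ i) := Nat.le_mul_of_pos_left _ (by positivity)
  nlinarith

lemma family_ineq (i : ℕ) : 1 + BB i * (NN i + dd i * qq i) < NN i * dd i := by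
  have h1 : BB i * qq i = 256 ^ (2 ^ i) := by
    unfold BB
    have : 2 ^ i * 16 ^ (2 ^ i) * qq i = 16 ^ (2 ^ i) * (2 ^ i * qq i) := by ring
    rw [this, kq, ← mul_pow]
    norm_num
  have h2 : BB i * (NN i + dd i * qq i) = BB i * NN i + dd i * (BB i * qq i) := by ring
  rw [h2, h1]
  have h3 : dd i = 2 * BB i + 1 := rfl
  have h4 : NN i = 2 * 256 ^ (2 ^ i) := rfl
  rw [h3, h4]
  have h5 : 1 < 256 ^ (2 ^ i) := Nat.one_lt_pow (by positivity) (by norm_num)
  nlinarith

/-- The data chosen at level `i`. -/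
lemma exists_level (i : ℕ) : ∃ F : Fin (NN i) × Fin (dd i) → Fin (qq i),
    ∃ T : Fin (2 ^ (2 * BB i)) → Finset (Fin (NN i) × Fin (dd i)),
      (∀ S : Finset (W (NN i) (dd i) (qq i)), S.card ≤ 2 ^ (2 ^ i) → (eIn F S).card ≤ 8 * S.card) ∧
      (∀ S : Finset (W (NN i) (dd i) (qq i)), S.card ≤ 16 ^ (2 ^ i) →
        (eIn F S).card ≤ 24 * 2 ^ i * S.card) ∧
      ∀ A : Fin (2 ^ BB i) → Fin (2 ^ BB i) → Bool, ∃ t,
        ∀ l : W (NN i) (dd i) (qq i) → Fin (2 ^ BB i),
          ∃ v w, v ≠ w ∧ ¬ ((gr F (T t)).Adj v w ↔ A (l v) (l w) = true) := by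
  obtain ⟨F, h1, h2⟩ := exists_good (N := NN i) (d := dd i) (q := qq i) (2 ^ i)
    Nat.one_le_two_pow (kq i) rfl rfl
  obtain ⟨T, hT⟩ := exists_family F (BB i) (family_ineq i)
  exact ⟨F, T, h1, h2, hT⟩

/-- the base graph at level `i` -/
noncomputable def lF (i : ℕ) : Fin (NN i) × Fin (dd i) → Fin (qq i) := (exists_level i).choose

/-- the family of subgraphs at level `i` -/
noncomputable def lT (i : ℕ) : Fin (2 ^ (2 * BB i)) → Finset (Fin (NN i) × Fin (dd i)) :=
  (exists_level i).choose_spec.choose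

lemma level_spec (i : ℕ) :
    (∀ S : Finset (W (NN i) (dd i) (qq i)), S.card ≤ 2 ^ (2 ^ i) →
      (eIn (lF i) S).card ≤ 8 * S.card) ∧
      (∀ S : Finset (W (NN i) (dd i) (qq i)), S.card ≤ 16 ^ (2 ^ i) →
        (eIn (lF i) S).card ≤ 24 * 2 ^ i * S.card) ∧
      ∀ A : Fin (2 ^ BB i) → Fin (2 ^ BB i) → Bool, ∃ t,
        ∀ l : W (NN i) (dd i) (qq i) → Fin (2 ^ BB i),
          ∃ v w, v ≠ w ∧ ¬ ((gr (lF i) (lT i t)).Adj v w ↔ A (l v) (l w) = true) :=
  (exists_level i).choose_spec.choose_spec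

/-- The hereditary property: all graphs isomorphic to an induced subgraph of a member of the
families chosen at the various levels. -/
noncomputable def theP : HereditaryProperty where
  graphs := fun m => {G | ∃ i : ℕ, ∃ t : Fin (2 ^ (2 * BB i)),
    ∃ φ : Fin m ↪ W (NN i) (dd i) (qq i), G = (gr (lF i) (lT i t)).comap φ}
  closed := by
    rintro m n f G ⟨i, t, φ, rfl⟩
    exact ⟨i, t, f.trans φ, rfl⟩

/-! ### The speed of the property -/

lemma level_count (i m : ℕ) (hm : 2 ≤ m) (him : 2 ^ (2 ^ i) ≤ m) :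
    ({G : SimpleGraph (Fin m) | ∃ φ : Fin m → W (NN i) (dd i) (qq i),
      ∃ t : Fin (2 ^ (2 * BB i)), G = (gr (lF i) (lT i t)).comap φ}).ncard ≤ m ^ (35 * m) := by
  have hm0 : 0 < m := by omega
  by_cases h : 16 ^ (2 ^ i) ≤ m
  · refine (ncard_family_le (lF i) m _ (lT i)).trans ?_
    have h1 : NN i + dd i * qq i ≤ m ^ 5 := by
      refine (vertices_le i).trans ?_
      have h2 : 256 ^ (2 ^ i) ≤ m ^ 2 := by
        have : 256 ^ (2 ^ i) = (16 ^ (2 ^ i)) ^ 2 := by
          rw [← pow_mul, mul_comm, pow_mul]; norm_num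
        rw [this]
        exact Nat.pow_le_pow_left h 2
      have h3 : 5 ≤ m ^ 3 := by
        calc 5 ≤ 2 ^ 3 := by norm_num
          _ ≤ m ^ 3 := Nat.pow_le_pow_left hm 3
      calc 5 * 256 ^ (2 ^ i) ≤ m ^ 3 * m ^ 2 := Nat.mul_le_mul h3 h2
        _ = m ^ 5 := by ring
    have h2 : 2 ^ (2 * BB i) ≤ m ^ m := by
      have e1 : 2 ^ (2 * BB i) = (4 ^ (2 ^ i)) ^ (16 ^ (2 ^ i)) := by
        unfold BB
        rw [← pow_mul, pow_mul]
        norm_num
      rw [e1]
      have e2 : 4 ^ (2 ^ i) ≤ m := (Nat.pow_le_pow_left (by norm_num) _).trans h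
      calc (4 ^ (2 ^ i)) ^ (16 ^ (2 ^ i)) ≤ m ^ (16 ^ (2 ^ i)) := Nat.pow_le_pow_left e2 _
        _ ≤ m ^ m := Nat.pow_le_pow_right hm0 h
    calc (NN i + dd i * qq i) ^ m * 2 ^ (2 * BB i) ≤ (m ^ 5) ^ m * m ^ m :=
          Nat.mul_le_mul (Nat.pow_le_pow_left h1 m) h2
      _ = m ^ (6 * m) := by rw [← pow_mul, ← pow_add]; congr 1; ring
      _ ≤ m ^ (35 * m) := Nat.pow_le_pow_right hm0 (by omega)
  · push Not at h
    have hsub : {G : SimpleGraph (Fin m) | ∃ φ : Fin m → W (NN i) (dd i) (qq i),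
        ∃ t : Fin (2 ^ (2 * BB i)), G = (gr (lF i) (lT i t)).comap φ} ⊆
        {G : SimpleGraph (Fin m) | ∃ φ : Fin m → W (NN i) (dd i) (qq i),
          ∃ T : Finset (Fin (NN i) × Fin (dd i)), G = (gr (lF i) T).comap φ} := by
      rintro G ⟨φ, t, rfl⟩
      exact ⟨φ, _, rfl⟩
    refine (Set.ncard_le_ncard hsub (Set.toFinite _)).trans ?_
    refine (ncard_all_le (lF i) m (24 * 2 ^ i * m) ?_).trans ?_
    · intro S hS
      exact ((level_spec i).2.1 S (hS.trans h.le)).trans (Nat.mul_le_mul_left _ hS)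
    · have h1 : NN i + dd i * qq i ≤ m ^ 11 := by
        refine (vertices_le i).trans ?_
        have h2 : 256 ^ (2 ^ i) ≤ m ^ 8 := by
          have : 256 ^ (2 ^ i) = (2 ^ (2 ^ i)) ^ 8 := by
            rw [← pow_mul, mul_comm, pow_mul]; norm_num
          rw [this]
          exact Nat.pow_le_pow_left him 8
        have h3 : 5 ≤ m ^ 3 := by
          calc 5 ≤ 2 ^ 3 := by norm_num
            _ ≤ m ^ 3 := Nat.pow_le_pow_left hm 3
        calc 5 * 256 ^ (2 ^ i) ≤ m ^ 3 * m ^ 8 := Nat.mul_le_mul h3 h2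
          _ = m ^ 11 := by ring
      have h2 : 2 ^ (24 * 2 ^ i * m) ≤ m ^ (24 * m) := by
        have e1 : 2 ^ (24 * 2 ^ i * m) = (2 ^ (2 ^ i)) ^ (24 * m) := by
          rw [← pow_mul]; congr 1; ring
        rw [e1]
        exact Nat.pow_le_pow_left him _
      calc (NN i + dd i * qq i) ^ m * 2 ^ (24 * 2 ^ i * m) ≤ (m ^ 11) ^ m * m ^ (24 * m) :=
            Nat.mul_le_mul (Nat.pow_le_pow_left h1 m) h2
        _ = m ^ (35 * m) := by rw [← pow_mul, ← pow_add]; congr 1; ring

lemma speed (m : ℕ) (hm : 2 ≤ m) : (theP.graphs m).ncard ≤ m ^ (37 * m) := by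
  classical
  have hm0 : 0 < m := by omega
  let D : ℕ → Set (SimpleGraph (Fin m)) := fun i =>
    {G : SimpleGraph (Fin m) | ∃ φ : Fin m → W (NN i) (dd i) (qq i),
      ∃ t : Fin (2 ^ (2 * BB i)), G = (gr (lF i) (lT i t)).comap φ}
  let C : Set (SimpleGraph (Fin m)) :=
    {G : SimpleGraph (Fin m) | ∃ R : Finset (Fin m × Fin m), R.card ≤ 8 * m ∧
      G = SimpleGraph.fromRel (fun a b => (a, b) ∈ R)}
  let I : Finset ℕ := (range m).filter (fun i => 2 ^ (2 ^ i) ≤ m)
  have hsub : theP.graphs m ⊆ (↑(I.biUnion (fun i => (Set.toFinite (D i)).toFinset) ∪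
      (Set.toFinite C).toFinset) : Set (SimpleGraph (Fin m))) := by
    rintro G ⟨i, t, φ, rfl⟩
    rw [mem_coe, mem_union]
    by_cases hi : 2 ^ (2 ^ i) ≤ m
    · left
      rw [mem_biUnion]
      refine ⟨i, ?_, ?_⟩
      · simp only [I, mem_filter, mem_range]
        refine ⟨?_, hi⟩
        have h1 : i < 2 ^ i := Nat.lt_two_pow_self
        have h2 : 2 ^ i < 2 ^ (2 ^ i) := Nat.lt_two_pow_self
        omega
      · rw [Set.Finite.mem_toFinset]
        exact ⟨φ, t, rfl⟩
    · right
      rw [Set.Finite.mem_toFinset]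
      refine comap_mem_sparse (lF i) (lT i t) m (8 * m) hm0 ?_ φ
      intro S hS
      push Not at hi
      exact ((level_spec i).1 S (hS.trans hi.le)).trans (Nat.mul_le_mul_left _ hS)
  refine (Set.ncard_le_ncard hsub (Finset.finite_toSet _)).trans ?_
  rw [Set.ncard_coe_finset]
  refine (card_union_le _ _).trans ?_
  have h1 : (I.biUnion (fun i => (Set.toFinite (D i)).toFinset)).card ≤ m * m ^ (35 * m) := by
    refine card_biUnion_le.trans ?_
    calc ∑ i ∈ I, (Set.toFinite (D i)).toFinset.card ≤ ∑ _i ∈ I, m ^ (35 * m) := by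
          apply sum_le_sum
          intro i hi
          rw [← Set.ncard_eq_toFinset_card]
          simp only [I, mem_filter, mem_range] at hi
          exact level_count i m hm hi.2
      _ = I.card * m ^ (35 * m) := by rw [sum_const, smul_eq_mul]
      _ ≤ m * m ^ (35 * m) := by
          apply Nat.mul_le_mul_right
          calc I.card ≤ (range m).card := card_filter_le _ _
            _ = m := card_range m
  have h2 : (Set.toFinite C).toFinset.card ≤ m ^ (24 * m) := by
    rw [← Set.ncard_eq_toFinset_card]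
    refine (ncard_sparse_le m (8 * m)).trans ?_
    have e1 : m ^ 2 + 1 ≤ m ^ 3 := by nlinarith [Nat.pow_le_pow_left hm 2]
    calc (m ^ 2 + 1) ^ (8 * m) ≤ (m ^ 3) ^ (8 * m) := Nat.pow_le_pow_left e1 _
      _ = m ^ (24 * m) := by rw [← pow_mul]; congr 1; ring
  have h3 : m * m ^ (35 * m) ≤ m ^ (36 * m) := by
    rw [← pow_succ']
    exact Nat.pow_le_pow_right hm0 (by omega)
  have h4 : m ^ (24 * m) ≤ m ^ (36 * m) := Nat.pow_le_pow_right hm0 (by omega)
  calc _ ≤ m ^ (36 * m) + m ^ (36 * m) := Nat.add_le_add (h1.trans h3) (h2.trans h4)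
    _ = 2 * m ^ (36 * m) := by ring
    _ ≤ m * m ^ (36 * m) := Nat.mul_le_mul_right _ hm
    _ = m ^ (36 * m + 1) := by rw [← pow_succ']
    _ ≤ m ^ (37 * m) := Nat.pow_le_pow_right hm0 (by omega)

lemma speedLimit_theP : SpeedLimit theP := by
  refine ⟨37, by norm_num, ?_⟩
  filter_upwards [eventually_ge_atTop 2] with n hn
  have h := speed n hn
  have e : (n : ℝ) ^ ((37 : ℝ) * (n : ℝ)) = ((n ^ (37 * n) : ℕ) : ℝ) := by
    push_cast
    rw [← Real.rpow_natCast]
    push_cast
    rfl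
  rw [e]
  exact_mod_cast h

/-! ### Coding short bit strings by numbers -/

/-- an injective code of bit strings by natural numbers -/
def code : List Bool → ℕ
  | [] => 1
  | (b :: s) => 2 * code s + (if b then 1 else 0)

lemma code_pos (s : List Bool) : 1 ≤ code s := by
  induction s with
  | nil => simp [code]
  | cons b s ih => simp only [code]; omega

lemma code_lt (s : List Bool) : code s < 2 ^ (s.length + 1) := by
  induction s with
  | nil => simp [code]
  | cons b s ih =>
    simp only [code, List.length_cons]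
    rw [pow_succ]
    split_ifs <;> omega

lemma code_injective : Function.Injective code := by
  intro s
  induction s with
  | nil =>
    intro s' h
    cases s' with
    | nil => rfl
    | cons b s' =>
      simp only [code] at h
      have := code_pos s'
      split_ifs at h <;> omega
  | cons b s ih =>
    intro s' h
    cases s' with
    | nil =>
      simp only [code] at h
      have := code_pos s
      split_ifs at h <;> omega
    | cons b' s' =>
      simp only [code] at h
      have hb : b = b' ∧ code s = code s' := by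
        cases b <;> cases b' <;> simp at h ⊢ <;> omega
      rw [hb.1, ih hb.2]

/-! ### The lower bound -/

lemma label_lower (b : ℕ → ℕ) (hb : HasLocalRep theP b) (i : ℕ) :
    BB i ≤ b (NN i + dd i * qq i) := by
  obtain ⟨A, hA⟩ := hb
  by_contra hlt
  push Not at hlt
  obtain ⟨t, ht⟩ := (level_spec i).2.2
    (fun x y => A (Function.invFun code x.1) (Function.invFun code y.1))
  have hcard : Fintype.card (W (NN i) (dd i) (qq i)) = NN i + dd i * qq i := by simp
  let e : Fin (NN i + dd i * qq i) ≃ W (NN i) (dd i) (qq i) :=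
    (Fintype.equivFinOfCardEq hcard).symm
  obtain ⟨l, hl1, hl2⟩ := hA (NN i + dd i * qq i) ((gr (lF i) (lT i t)).comap e.toEmbedding)
    ⟨i, t, e.toEmbedding, rfl⟩
  have hlen : ∀ w, code (l (e.symm w)) < 2 ^ BB i := by
    intro w
    refine (code_lt _).trans_le ?_
    apply Nat.pow_le_pow_right (by norm_num)
    have := hl1 (e.symm w)
    omega
  obtain ⟨v, w, hvw, hne⟩ := ht (fun w => ⟨code (l (e.symm w)), hlen w⟩)
  apply hne
  have hinv : ∀ s, Function.invFun code (code s) = s := Function.leftInverse_invFun code_injective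
  simp only [hinv]
  rw [← hl2 (e.symm v) (e.symm w) (by simpa using hvw)]
  simp

lemma numeric (i : ℕ) :
    (1 / 20 : ℝ) * (Real.sqrt ((NN i + dd i * qq i : ℕ) : ℝ) *
      Real.log ((NN i + dd i * qq i : ℕ) : ℝ)) < (BB i : ℝ) := by
  set n : ℕ := NN i + dd i * qq i with hn
  set κ : ℕ := 2 ^ i with hκ
  have hκ1 : 1 ≤ κ := Nat.one_le_two_pow
  have h1 : (n : ℝ) ≤ 5 * 256 ^ κ := by exact_mod_cast vertices_le i
  have hn1 : 1 ≤ n := by
    have : 0 < NN i := by unfold NN; positivity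
    omega
  have hnpos : (0 : ℝ) < n := by exact_mod_cast hn1
  have h2 : Real.sqrt (n : ℝ) ≤ 9 / 4 * 16 ^ κ := by
    rw [Real.sqrt_le_left (by positivity)]
    have e : (9 / 4 * (16 : ℝ) ^ κ) ^ 2 = 81 / 16 * 256 ^ κ := by
      rw [mul_pow, ← pow_mul, mul_comm κ 2, pow_mul]; norm_num
    rw [e]
    have : (0 : ℝ) < 256 ^ κ := by positivity
    linarith
  have h3 : Real.log (n : ℝ) ≤ 8 * κ := by
    rw [Real.log_le_iff_le_exp hnpos]
    refine h1.trans ?_
    have e1 : Real.exp (8 * (κ : ℝ)) = (Real.exp 1 ^ 8) ^ κ := by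
      rw [← pow_mul, ← Real.exp_nat_mul]
      push_cast
      ring_nf
    rw [e1]
    have e2 : (5 * 256 : ℝ) ≤ Real.exp 1 ^ 8 := by
      have h4 : (2.7 : ℝ) ≤ Real.exp 1 := by linarith [Real.exp_one_gt_d9]
      calc (5 * 256 : ℝ) ≤ 2.7 ^ 8 := by norm_num
        _ ≤ Real.exp 1 ^ 8 := pow_le_pow_left₀ (by norm_num) h4 8
    calc (5 : ℝ) * 256 ^ κ ≤ 5 ^ κ * 256 ^ κ := by
          apply mul_le_mul_of_nonneg_right _ (by positivity)
          calc (5 : ℝ) = 5 ^ 1 := by norm_num
            _ ≤ 5 ^ κ := pow_le_pow_right₀ (by norm_num) hκ1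
      _ = (5 * 256) ^ κ := by rw [mul_pow]
      _ ≤ (Real.exp 1 ^ 8) ^ κ := pow_le_pow_left₀ (by norm_num) e2 κ
  have h4 : 0 ≤ Real.log (n : ℝ) := Real.log_nonneg (by exact_mod_cast hn1)
  have h5 : Real.sqrt (n : ℝ) * Real.log (n : ℝ) ≤ (9 / 4 * 16 ^ κ) * (8 * κ) :=
    mul_le_mul h2 h3 h4 (by positivity)
  have h6 : (BB i : ℝ) = κ * 16 ^ κ := by
    rw [hκ]
    unfold BB
    push_cast
    ring
  rw [h6]
  have h7 : (0 : ℝ) < κ * 16 ^ κ := by
    have : (0 : ℝ) < κ := by exact_mod_cast hκ1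
    positivity
  nlinarith

/-- **Main result.** There is a hereditary property `P` of finite graphs that satisfies the speed
limit, such that whenever `P` has a local representation with `b n`-bit labels, then
`b n > (1/20) * sqrt n * log n` for infinitely many `n`. -/
theorem result : ∃ P : HereditaryProperty, SpeedLimit P ∧
    ∀ b : ℕ → ℕ, HasLocalRep P b →
      ∃ᶠ n : ℕ in atTop, (1 / 20 : ℝ) * (Real.sqrt (n : ℝ) * Real.log (n : ℝ)) < (b n : ℝ) := by
  refine ⟨theP, speedLimit_theP, ?_⟩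
  intro b hb
  rw [frequently_atTop]
  intro a
  refine ⟨NN a + dd a * qq a, ?_, ?_⟩
  · have h1 : a < 2 ^ a := Nat.lt_two_pow_self
    have h2 : 2 ^ a < 256 ^ (2 ^ a) := Nat.lt_pow_self (by norm_num)
    have h3 : NN a = 2 * 256 ^ (2 ^ a) := rfl
    omega
  · refine (numeric a).trans_le ?_
    exact_mod_cast label_lower b hb a

/-- The question Q1: does every hereditary property satisfying the speed limit admit a local
representation with labels of `O(sqrt n)` bits? -/
def Q1 : Prop := ∀ P : HereditaryProperty, SpeedLimit P →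
  ∃ b : ℕ → ℕ, (∃ c : ℝ, ∀ n : ℕ, 2 ≤ n → (b n : ℝ) ≤ c * Real.sqrt (n : ℝ)) ∧ HasLocalRep P b

/-- The main result answers Q1 in the negative. -/
theorem not_Q1 : ¬ Q1 := by
  intro hQ
  obtain ⟨P, hP, hlow⟩ := result
  obtain ⟨b, ⟨c, hc⟩, hb⟩ := hQ P hP
  have hf := hlow b hb
  have hlog : ∀ᶠ n : ℕ in atTop, 20 * c < Real.log (n : ℝ) :=
    (Real.tendsto_log_atTop.comp tendsto_natCast_atTop_atTop).eventually_gt_atTop (20 * c)
  obtain ⟨n, hn1, hn2, hn3⟩ := (hf.and_eventually (hlog.and (eventually_ge_atTop 2))).exists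
  have h1 := hc n hn3
  have h2 : 0 < Real.sqrt (n : ℝ) := Real.sqrt_pos.mpr (by
    have : (2 : ℝ) ≤ n := by exact_mod_cast hn3
    linarith)
  nlinarith [mul_lt_mul_of_pos_left hn2 h2]

end Pool.Agent.Results.MP_3772ec_co.SqrtLogLower
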